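import Pool.Agent.Helper79.TLN.StN

/-!
# Project TLN, module NH2: the Fourier series of `HK`
-/

set_option autoImplicit false

open MeasureTheory Set Filter

namespace Pool.Agent.Helper53.TLN

open Pool.Agent.Helper79.TLN Pool.Agent.Helper28.LV Pool.Agent.Helper28.WK Pool.Agent.Helper14.WK
open Pool.Agent.Helper14.CV (G0)

private theorem gam {A m : ℕ} (hm : 1 ≤ m) :
    ∫ y in Ioi (0 : ℝ), y ^ (2 * A) * Real.exp (-(2 * Real.pi * m * y)) =
      ((2 * A).factorial : ℝ) / (2 * Real.pi * m) ^ (2 * A + 1) := by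
  have hr : 0 < 2 * Real.pi * (m : ℝ) := by
    have : (0 : ℝ) < m := by exact_mod_cast hm
    positivity
  have h := Real.integral_rpow_mul_exp_neg_mul_Ioi (a := (2 * A : ℕ) + 1) (r := 2 * Real.pi * m)
    (by positivity) hr
  have e1 : ∫ y in Ioi (0 : ℝ), y ^ (2 * A) * Real.exp (-(2 * Real.pi * m * y)) =
      ∫ y in Ioi (0 : ℝ), y ^ ((((2 * A : ℕ) : ℝ) + 1) - 1) *
        Real.exp (-(2 * Real.pi * m * y)) := by
    refine setIntegral_congr_fun measurableSet_Ioi fun y _ => ?_
    have e2 : (((2 * A : ℕ) : ℝ) + 1) - 1 = ((2 * A : ℕ) : ℝ) := by ring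
    show y ^ (2 * A) * Real.exp (-(2 * Real.pi * m * y)) = y ^ ((((2 * A : ℕ) : ℝ) + 1) - 1) *
        Real.exp (-(2 * Real.pi * m * y))
    rw [e2, Real.rpow_natCast]
  rw [e1, h]
  rw [Real.Gamma_nat_eq_factorial, one_div, Real.inv_rpow hr.le]
  have e3 : (((2 * A : ℕ) : ℝ) + 1) = ((2 * A + 1 : ℕ) : ℝ) := by push_cast; ring
  rw [e3, Real.rpow_natCast]
  field_simp

private theorem gam_pos {A m : ℕ} (hm : 1 ≤ m) :
    0 < ((2 * A).factorial : ℝ) / (2 * Real.pi * m) ^ (2 * A + 1) := by
  have h1 : (0 : ℝ) < m := by exact_mod_cast hm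
  have h2 : (0 : ℝ) < (2 * A).factorial := by exact_mod_cast Nat.factorial_pos _
  positivity

private theorem gint {A m : ℕ} (hm : 1 ≤ m) :
    IntegrableOn (fun y : ℝ => y ^ (2 * A) * Real.exp (-(2 * Real.pi * m * y))) (Ioi (0 : ℝ)) := by
  by_contra h
  have h1 := gam (A := A) hm
  rw [integral_undef h] at h1
  exact (gam_pos (A := A) hm).ne h1

/-- NH2. -/
theorem hNH2 : SNH2 := by
  intro hK hS N hN A f hA
  have hs := hS N hN A f hA
  refine ⟨hs, fun x => ?_⟩
  have h0 : fcK f 0 = 0 := (hK N hN _ f Complex.I (by simp)).1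
  -- the terms of the series
  have hF : ∀ (m : ℕ) (y : ℝ), fcK f m * Complex.exp (2 * Real.pi * Complex.I * m *
      (x + y * Complex.I)) * (y : ℂ) ^ (2 * A) =
      (fcK f m * Complex.exp (2 * Real.pi * Complex.I * m * x)) *
        ((y ^ (2 * A) * Real.exp (-(2 * Real.pi * m * y)) : ℝ) : ℂ) := by
    intro m y
    have e : (2 * Real.pi * Complex.I * m * (x + y * Complex.I) : ℂ) =
        2 * Real.pi * Complex.I * m * x + ((-(2 * Real.pi * m * y) : ℝ) : ℂ) := by
      have hI : Complex.I * Complex.I = -1 := Complex.I_mul_I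
      push_cast
      linear_combination (2 * Real.pi * m * y) * hI
    rw [e, Complex.exp_add, ← Complex.ofReal_exp]
    push_cast
    ring
  have hnx : ∀ m : ℕ, ‖Complex.exp (2 * Real.pi * Complex.I * m * x)‖ = 1 := by
    intro m
    have e' : (2 * Real.pi * Complex.I * m * x : ℂ) =
        ((2 * Real.pi * m * x : ℝ) : ℂ) * Complex.I := by
      push_cast
      ring
    rw [e', Complex.norm_exp_ofReal_mul_I]
  have hint : ∀ m : ℕ, Integrable (fun y : ℝ => fcK f m * Complex.exp (2 * Real.pi * Complex.I * m *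
      (x + y * Complex.I)) * (y : ℂ) ^ (2 * A)) (volume.restrict (Ioi (0 : ℝ))) := by
    intro m
    simp only [hF]
    rcases Nat.eq_zero_or_pos m with rfl | hm
    · simp only [h0, zero_mul]
      exact integrable_zero _ _ _
    · exact ((gint (A := A) hm).ofReal).const_mul _
  have hval : ∀ m : ℕ, ∫ y in Ioi (0 : ℝ), fcK f m * Complex.exp (2 * Real.pi * Complex.I * m *
      (x + y * Complex.I)) * (y : ℂ) ^ (2 * A) =
      fcK f m * ((2 * A).factorial / (2 * Real.pi * m) ^ (2 * A + 1) : ℝ) *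
        Complex.exp (2 * Real.pi * Complex.I * m * x) := by
    intro m
    simp only [hF]
    rcases Nat.eq_zero_or_pos m with rfl | hm
    · simp [h0]
    · rw [integral_const_mul, integral_complex_ofReal, gam hm]
      ring
  have hnval : ∀ m : ℕ, ∫ y in Ioi (0 : ℝ), ‖fcK f m * Complex.exp (2 * Real.pi * Complex.I * m *
      (x + y * Complex.I)) * (y : ℂ) ^ (2 * A)‖ =
      (‖fcK f m‖ / (m : ℝ) ^ (2 * A + 1)) *
        ((2 * A).factorial / (2 * Real.pi) ^ (2 * A + 1)) := by
    intro m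
    simp only [hF]
    rcases Nat.eq_zero_or_pos m with rfl | hm
    · simp [h0]
    · have e1 : ∀ y ∈ Ioi (0 : ℝ), ‖fcK f m * Complex.exp (2 * Real.pi * Complex.I * m * x) *
          ((y ^ (2 * A) * Real.exp (-(2 * Real.pi * m * y)) : ℝ) : ℂ)‖ =
          ‖fcK f m‖ * (y ^ (2 * A) * Real.exp (-(2 * Real.pi * m * y))) := by
        intro y hy
        have hy' : (0 : ℝ) < y := hy
        rw [norm_mul, norm_mul, hnx, mul_one, Complex.norm_real,
          Real.norm_of_nonneg (by positivity)]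
      rw [setIntegral_congr_fun measurableSet_Ioi e1, integral_const_mul, gam hm, mul_pow]
      have hm' : (m : ℝ) ≠ 0 := by
        have : (0 : ℝ) < m := by exact_mod_cast hm
        exact this.ne'
      have hpi := Real.pi_pos.ne'
      field_simp
  have hmain := hasSum_integral_of_summable_integral_norm (μ := volume.restrict (Ioi (0 : ℝ)))
    (F := fun (m : ℕ) (y : ℝ) => fcK f m * Complex.exp (2 * Real.pi * Complex.I * m *
      (x + y * Complex.I)) * (y : ℂ) ^ (2 * A)) hint
    (by
      simp only [hnval]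
      exact hs.mul_right _)
  simp only [hval] at hmain
  have hHK : ∫ y in Ioi (0 : ℝ), (∑' m : ℕ, fcK f m * Complex.exp (2 * Real.pi * Complex.I * m *
      (x + y * Complex.I)) * (y : ℂ) ^ (2 * A)) = HK A f x := by
    unfold HK
    refine setIntegral_congr_fun measurableSet_Ioi fun y hy => ?_
    have h2 := (hK N hN _ f (x + y * Complex.I) (by simpa using hy)).2.2.1
    exact (h2.mul_right ((y : ℂ) ^ (2 * A))).tsum_eq
  rw [hHK] at hmain
  exact hmain

end Pool.Agent.Helper53.TLN
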